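import Pool.Agent.Run7.h506.TA.Stm
import Pool.Agent.TH217.TL.Glue

/-!
Piece GLUE of project TA (helper506): modification of a Lagrangian inside a tube.
-/

set_option autoImplicit false

namespace Run7.h716.TA

open Set Filter Topology
open scoped ContDiff
open Pool.Agent.W774.TL Pool.Agent.Run7.h506.TA
open Pool.Agent.TH217.TL (H2 PerE glue_thm two_le k_le)

/-! ### the cut-off -/

/-- smooth cut-off in the transversal coordinates. -/
noncomputable def chi {m : ℕ} (a b : ℝ) (x : X m) : ℝ :=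
  ∏ i : Fin m, Real.smoothTransition ((b ^ 2 - x i.succ ^ 2) / (b ^ 2 - a ^ 2))

lemma chi_cd {m : ℕ} (a b : ℝ) : ContDiff ℝ (⊤ : ℕ∞) (chi (m := m) a b) := by
  unfold chi
  apply contDiff_prod
  intro i _
  exact Real.smoothTransition.contDiff.comp
    ((contDiff_const.sub ((contDiff_apply ℝ ℝ i.succ).pow 2)).div_const _)

lemma chi_nonneg {m : ℕ} (a b : ℝ) (x : X m) : 0 ≤ chi a b x :=
  Finset.prod_nonneg fun _ _ => Real.smoothTransition.nonneg _

lemma chi_le_one {m : ℕ} (a b : ℝ) (x : X m) : chi a b x ≤ 1 :=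
  Finset.prod_le_one (fun _ _ => Real.smoothTransition.nonneg _)
    fun _ _ => Real.smoothTransition.le_one _

lemma chi_one {m : ℕ} {a b : ℝ} (ha : 0 ≤ a) (hab : a < b) {x : X m}
    (h : ∀ i : Fin m, |x i.succ| ≤ a) : chi a b x = 1 := by
  apply Finset.prod_eq_one
  intro i _
  apply Real.smoothTransition.one_of_one_le
  have h1 : 0 < b ^ 2 - a ^ 2 := by nlinarith
  rw [le_div_iff₀ h1]
  have h2 := h i
  have h3 := abs_nonneg (x i.succ)
  have h4 := sq_abs (x i.succ)
  nlinarith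

lemma chi_zero {m : ℕ} {a b : ℝ} (ha : 0 ≤ a) (hab : a < b) {x : X m} {i : Fin m}
    (h : b ≤ |x i.succ|) : chi a b x = 0 := by
  apply Finset.prod_eq_zero (Finset.mem_univ i)
  apply Real.smoothTransition.zero_of_nonpos
  have h1 : 0 < b ^ 2 - a ^ 2 := by nlinarith
  apply div_nonpos_of_nonpos_of_nonneg _ h1.le
  have h4 := sq_abs (x i.succ)
  nlinarith

lemma chi_tube {m : ℕ} {a b : ℝ} (ha : 0 ≤ a) (hab : a < b) {x : X m} (h : chi a b x ≠ 0) :
    x ∈ Tube m b := by
  intro i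
  by_contra hc
  exact h (chi_zero ha hab (not_lt.1 hc))

lemma chi_update {m : ℕ} (a b : ℝ) (x : X m) (y : ℝ) :
    chi a b (Function.update x 0 y) = chi a b x := by
  unfold chi
  refine Finset.prod_congr rfl fun i _ => ?_
  rw [Function.update_of_ne (Fin.succ_ne_zero i)]

lemma tube_update {m : ℕ} {ε : ℝ} {x : X m} (h : x ∈ Tube m ε) (y : ℝ) :
    Function.update x 0 y ∈ Tube m ε := by
  intro i
  rw [Function.update_of_ne (Fin.succ_ne_zero i)]
  exact h i

lemma tube_mono {m : ℕ} {a b : ℝ} (hab : a ≤ b) {x : X m} (h : x ∈ Tube m a) : x ∈ Tube m b :=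
  fun i => (h i).trans_le hab

lemma isOpen_tube (m : ℕ) (ε : ℝ) : IsOpen {q : X m × X m × ℝ | q.1 ∈ Tube m ε} := by
  have h1 : Tube m ε = ⋂ i : Fin m, {x : X m | |x i.succ| < ε} := by
    ext x
    simp [Tube]
  have h2 : IsOpen (Tube m ε) := by
    rw [h1]
    exact isOpen_iInter_of_finite fun i =>
      isOpen_lt (continuous_abs.comp (continuous_apply _)) continuous_const
  exact h2.preimage continuous_fst

/-! ### second derivatives along lines -/

lemma lineOn {m : ℕ} {F : X m × X m × ℝ → ℝ} {Ω : Set (X m × X m × ℝ)} (hΩ : IsOpen Ω)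
    (h : ContDiffOn ℝ 2 F Ω) (x v : X m) (t : ℝ) (w : X m)
    (hq : ∀ s : ℝ, (x, v + s • w, t) ∈ Ω) :
    (∀ s : ℝ, HasDerivAt (fun s : ℝ => F (x, v + s • w, t))
      (fderiv ℝ F (x, v + s • w, t) (0, w, 0)) s) ∧
    HasDerivAt (fun s : ℝ => fderiv ℝ F (x, v + s • w, t) (0, w, 0)) (H2 F (x, v, t) w) 0 := by
  have hl : ∀ s : ℝ, HasDerivAt (fun s : ℝ => ((x, v + s • w, t) : X m × X m × ℝ)) (0, w, 0) s := by
    intro s
    have h1 : HasDerivAt (fun s : ℝ => v + s • w) w s := by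
      simpa using ((hasDerivAt_id s).smul_const w).const_add v
    exact (hasDerivAt_const s x).prodMk (h1.prodMk (hasDerivAt_const s t))
  have hat : ∀ s : ℝ, ContDiffAt ℝ 2 F (x, v + s • w, t) := fun s =>
    h.contDiffAt (hΩ.mem_nhds (hq s))
  refine ⟨fun s => ((hat s).differentiableAt (by norm_num)).hasFDerivAt.comp_hasDerivAt s (hl s), ?_⟩
  have h2 : ContDiffAt ℝ 1 (fderiv ℝ F) (x, v + (0 : ℝ) • w, t) :=
    (hat 0).fderiv_right (m := 1) (by norm_num)
  have h3 := (h2.differentiableAt (by norm_num)).hasFDerivAt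
  have h4 := ((ContinuousLinearMap.apply ℝ ℝ ((0, w, 0) : X m × X m × ℝ)).hasFDerivAt.comp _
    h3).comp_hasDerivAt 0 (hl 0)
  have e : ((x, v + (0 : ℝ) • w, t) : X m × X m × ℝ) = (x, v, t) := by
    rw [zero_smul, add_zero]
  rw [e] at h4
  exact h4

lemma comb_aux {f a b f1 a1 b1 : ℝ → ℝ} {f2 a2 b2 c : ℝ} (hf : ∀ s, HasDerivAt f (f1 s) s)
    (hf2 : HasDerivAt f1 f2 0) (ha : ∀ s, HasDerivAt a (a1 s) s) (ha2 : HasDerivAt a1 a2 0)
    (hb : ∀ s, HasDerivAt b (b1 s) s) (hb2 : HasDerivAt b1 b2 0)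
    (h : ∀ s, f s = c * a s + (1 - c) * b s) : f2 = c * a2 + (1 - c) * b2 := by
  have e0 : f = fun s => c * a s + (1 - c) * b s := funext h
  have e1 : f1 = fun s => c * a1 s + (1 - c) * b1 s := by
    funext s
    have h1 := hf s
    rw [e0] at h1
    exact h1.unique (((ha s).const_mul c).fun_add ((hb s).const_mul (1 - c)))
  rw [e1] at hf2
  exact hf2.unique ((ha2.const_mul c).fun_add (hb2.const_mul (1 - c)))

/-! ### the quadratic Lagrangian -/

noncomputable def qd {m : ℕ} (q : X m × X m × ℝ) : ℝ := ∑ i, q.2.1 i ^ 2 / 2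

lemma qd_cd {m : ℕ} : ContDiff ℝ (⊤ : ℕ∞) (qd (m := m)) := by
  unfold qd
  apply ContDiff.sum
  intro i _
  exact (((contDiff_apply ℝ ℝ i).comp (contDiff_fst.comp contDiff_snd)).pow 2).div_const _

lemma qd_line {m : ℕ} (x v : X m) (t : ℝ) (w : X m) :
    (∀ s : ℝ, HasDerivAt (fun s : ℝ => qd (x, v + s • w, t)) (∑ i, (v i + s * w i) * w i) s) ∧
    HasDerivAt (fun s : ℝ => ∑ i, (v i + s * w i) * w i) (∑ i, w i * w i) 0 := by
  have h1 : ∀ (s : ℝ) (i : Fin (m + 1)), HasDerivAt (fun s : ℝ => v i + s * w i) (w i) s := by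
    intro s i
    simpa using ((hasDerivAt_id s).mul_const (w i)).const_add (v i)
  constructor
  · intro s
    unfold qd
    apply HasDerivAt.fun_sum
    intro i _
    have h2 := ((h1 s i).fun_pow 2).div_const 2
    have e : (v i + s * w i) * w i = ((2 : ℕ) : ℝ) * (v i + s * w i) ^ (2 - 1) * w i / 2 := by
      norm_num
      ring
    rw [e]
    exact h2
  · apply HasDerivAt.fun_sum
    intro i _
    exact (h1 0 i).mul_const (w i)

lemma sum_pos_of {m : ℕ} {w : X m} (hw : w ≠ 0) : 0 < ∑ i, w i * w i := by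
  obtain ⟨i, hi⟩ : ∃ i, w i ≠ 0 := by
    by_contra hc
    push Not at hc
    exact hw (funext hc)
  exact Finset.sum_pos' (fun j _ => mul_self_nonneg _) ⟨i, Finset.mem_univ _, mul_self_pos.mpr hi⟩

/-! ### reduction of the transversal coordinates -/

noncomputable def red {m : ℕ} (x : X m) : X m := fun j => if j = 0 then x 0 else x j - round (x j)

lemma red_succ {m : ℕ} (x : X m) (i : Fin m) :
    red x i.succ = x i.succ - round (x i.succ) := if_neg (Fin.succ_ne_zero i)

lemma red_eq {m : ℕ} {x : X m} (h : ∀ i : Fin m, |x i.succ| < 1 / 2) : red x = x := by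
  funext j
  refine Fin.cases ?_ (fun i => ?_) j
  · exact if_pos rfl
  · rw [red_succ]
    have h1 : round (x i.succ) = 0 := by
      rw [round_eq, Int.floor_eq_iff]
      have := abs_lt.1 (h i)
      constructor
      · push_cast
        linarith [this.1]
      · push_cast
        linarith [this.2]
    rw [h1]
    simp

lemma round_near {y y' : ℝ} (h : |y - round y| ≤ 1 / 4) (h' : |y' - y| < 1 / 4) :
    round y' = round y := by
  rw [round_eq y', Int.floor_eq_iff]
  have h1 := abs_le.1 h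
  have h2 := abs_lt.1 h'
  constructor
  · linarith [h1.1, h2.1]
  · linarith [h1.2, h2.2]

/-- the reduced and cut off Lagrangian. -/
noncomputable def UU {m : ℕ} (a b : ℝ) (L₀ : X m → X m → ℝ → ℝ) (q : X m × X m × ℝ) : ℝ :=
  chi a b (red q.1) * L₀ (red q.1) q.2.1 q.2.2 + (1 - chi a b (red q.1)) * qd q

/-- the cut off Lagrangian. -/
noncomputable def FF {m : ℕ} (a b : ℝ) (L₀ : X m → X m → ℝ → ℝ) (q : X m × X m × ℝ) : ℝ :=
  chi a b q.1 * L₀ q.1 q.2.1 q.2.2 + (1 - chi a b q.1) * qd q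

lemma chi1_cd {m : ℕ} {k : ℕ∞} (a b : ℝ) :
    ContDiff ℝ k (fun q : X m × X m × ℝ => chi a b q.1) :=
  ((chi_cd a b).of_le k_le).comp contDiff_fst

lemma FF_cd {m : ℕ} {k : ℕ∞} {ε : ℝ} (a b : ℝ) {L₀ : X m → X m → ℝ → ℝ} (h : OnTube k ε L₀) :
    ContDiffOn ℝ k (FF a b L₀) {q | q.1 ∈ Tube m ε} :=
  ((chi1_cd a b).contDiffOn.mul h.1).add
    ((contDiff_const.sub (chi1_cd a b)).mul (qd_cd.of_le k_le)).contDiffOn

lemma UU_cd {m : ℕ} {k : ℕ∞} {ε a b : ℝ} (ha : 0 ≤ a) (hab : a < b) (hb : b < ε)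
    (hε : ε ≤ 1 / 4) {L₀ : X m → X m → ℝ → ℝ} (h : OnTube k ε L₀) : ContDiff ℝ k (UU a b L₀) := by
  rw [contDiff_iff_contDiffAt]
  intro q
  by_cases hq : red q.1 ∈ Tube m ε
  · set n : X m := fun j => if j = 0 then 0 else (round (q.1 j) : ℝ) with hn
    have h1 : ∀ᶠ q' in 𝓝 q, red q'.1 = q'.1 - n := by
      have h2 : ∀ i : Fin m, ∀ᶠ q' in 𝓝 q, |q'.1 i.succ - q.1 i.succ| < 1 / 4 := by
        intro i
        have h3 : ContinuousAt (fun q' : X m × X m × ℝ => |q'.1 i.succ - q.1 i.succ|) q := by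
          fun_prop
        have h4 := h3.eventually (gt_mem_nhds (show |q.1 i.succ - q.1 i.succ| < 1 / 4 by simp))
        exact h4
      filter_upwards [eventually_all.2 h2] with q' hq'
      funext j
      refine Fin.cases ?_ (fun i => ?_) j
      · simp [red, hn]
      · have h5 := hq i
        rw [red_succ] at h5
        rw [red_succ, round_near (h5.le.trans hε) (hq' i)]
        simp [hn, Fin.succ_ne_zero]
    have h6 : UU a b L₀ =ᶠ[𝓝 q] fun q' => FF a b L₀ (q'.1 - n, q'.2) := by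
      filter_upwards [h1] with q' hq'
      simp only [UU, FF, hq']
      rfl
    have h7 : (q.1 - n) ∈ Tube m ε := by
      rw [← h1.self_of_nhds]
      exact hq
    have h8 : ContDiffAt ℝ k (FF a b L₀) (q.1 - n, q.2) :=
      (FF_cd a b h).contDiffAt ((isOpen_tube m ε).mem_nhds h7)
    have h9 : ContDiffAt ℝ k (fun q' : X m × X m × ℝ => ((q'.1 - n, q'.2) : X m × X m × ℝ)) q :=
      ((contDiff_fst.sub contDiff_const).prodMk contDiff_snd).contDiffAt
    have h10 : ContDiffAt ℝ k (fun q' : X m × X m × ℝ => FF a b L₀ (q'.1 - n, q'.2)) q :=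
      ContDiffAt.comp (g := FF a b L₀) q h8 h9
    exact h10.congr_of_eventuallyEq h6
  · obtain ⟨i, hi⟩ : ∃ i : Fin m, ε ≤ |red q.1 i.succ| := by
      by_contra hc
      push Not at hc
      exact hq hc
    have h1 : UU a b L₀ =ᶠ[𝓝 q] qd := by
      have h3 : ContinuousAt (fun q' : X m × X m × ℝ => |q'.1 i.succ - q.1 i.succ|) q := by
        fun_prop
      have h4 := h3.eventually (gt_mem_nhds (show |q.1 i.succ - q.1 i.succ| < ε - b by
        simpa using hb))
      filter_upwards [h4] with q' hq'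
      have h5 : b ≤ |red q'.1 i.succ| := by
        rw [red_succ] at hi ⊢
        have h6 := round_le (q.1 i.succ) (round (q'.1 i.succ))
        have h7 : |q.1 i.succ - (round (q'.1 i.succ) : ℝ)| ≤
            |q'.1 i.succ - q.1 i.succ| + |q'.1 i.succ - (round (q'.1 i.succ) : ℝ)| := by
          rw [abs_sub_comm (q'.1 i.succ) (q.1 i.succ)]
          exact abs_sub_le _ _ _
        linarith
      simp only [UU, chi_zero ha hab h5]
      ring
    exact ((qd_cd.of_le k_le).contDiffAt).congr_of_eventuallyEq h1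

lemma L0_per {m : ℕ} {k : ℕ∞} {ε : ℝ} {L₀ : X m → X m → ℝ → ℝ} (h : OnTube k ε L₀) {x : X m}
    (hx : x ∈ Tube m ε) (v : X m) (t : ℝ) (n l : ℤ) :
    L₀ (Function.update x 0 (x 0 + n)) v (t + l) = L₀ x v t := by
  have h1 : Function.Periodic (fun s => L₀ x v s) 1 := fun s => (h.2.1 x v s hx).2
  have h2 : ∀ s : ℝ, Function.Periodic (fun y => L₀ (Function.update x 0 y) v s) 1 := by
    intro s y
    have h3 := (h.2.1 (Function.update x 0 y) v s (tube_update hx y)).1
    simpa using h3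
  have h4 := (h2 (t + l)).int_mul n (x 0)
  have h5 := h1.int_mul l t
  simp only [mul_one] at h4 h5
  rw [h4, Function.update_eq_self, h5]

lemma UU_per {m : ℕ} {k : ℕ∞} {ε a b : ℝ} (ha : 0 ≤ a) (hab : a < b) (hb : b < ε)
    {L₀ : X m → X m → ℝ → ℝ} (h : OnTube k ε L₀) : PerE (UU a b L₀) := by
  intro x v t n l
  have h1 : red (fun i => x i + (n i : ℝ)) = Function.update (red x) 0 (red x 0 + (n 0 : ℝ)) := by
    funext j
    refine Fin.cases ?_ (fun i => ?_) j
    · simp [red]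
    · rw [Function.update_of_ne (Fin.succ_ne_zero i), red_succ, red_succ, round_add_intCast]
      push_cast
      ring
  have h2 : qd ((fun i => x i + (n i : ℝ), v, t + (l : ℝ)) : X m × X m × ℝ) = qd (x, v, t) := rfl
  simp only [UU]
  rw [h1, chi_update, h2]
  by_cases hc : chi a b (red x) = 0
  · rw [hc]
    ring
  · rw [L0_per h (tube_mono hb.le (chi_tube ha hab hc))]

lemma UU_pos {m : ℕ} {k : ℕ∞} {ε a b : ℝ} (hk : 2 ≤ k) (ha : 0 ≤ a) (hab : a < b) (hb : b < ε)
    (hε : ε ≤ 1 / 4) {L₀ : X m → X m → ℝ → ℝ} (h : OnTube k ε L₀) (q : X m × X m × ℝ) (w : X m)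
    (hw : w ≠ 0) : 0 < H2 (UU a b L₀) q w := by
  obtain ⟨x, v, t⟩ := q
  have hU := lineOn isOpen_univ ((UU_cd ha hab hb hε h).of_le (two_le hk)).contDiffOn x v t w
    (fun _ => mem_univ _)
  have hQ := qd_line x v t w
  have hsp := sum_pos_of hw
  by_cases hc : chi a b (red x) = 0
  · have h1 := comb_aux hU.1 hU.2 hQ.1 hQ.2 hQ.1 hQ.2 (c := 0) (fun s => by
      simp only [UU, hc]
      ring)
    rw [h1]
    linarith
  · have hx := tube_mono hb.le (chi_tube ha hab hc)
    have hA := lineOn (isOpen_tube m ε) (h.1.of_le (two_le hk)) (red x) v t w (fun _ => hx)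
    have h1 := comb_aux hU.1 hU.2 hA.1 hA.2 hQ.1 hQ.2 (c := chi a b (red x)) (fun s => rfl)
    have h2 : 0 < H2 (U L₀) (red x, v, t) w := h.2.2 (red x, v, t) hx w hw
    have h3 := chi_le_one a b (red x)
    have h4 : 0 < chi a b (red x) := lt_of_le_of_ne (chi_nonneg _ _ _) (Ne.symm hc)
    rw [h1]
    have := mul_pos h4 h2
    have := mul_nonneg (sub_nonneg.2 h3) hsp.le
    linarith

/-! ### the gluing -/

theorem t_GLUE : S_GLUE := by
  intro m k ε hk hε0 hε L₀ hL Y hYs hYp hY2 hYsup R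
  have ha1 : (0 : ℝ) ≤ ε / 2 := by linarith
  have hab1 : ε / 2 < 3 * ε / 4 := by linarith
  have hb1 : 3 * ε / 4 < ε := by linarith
  have ha2 : (0 : ℝ) ≤ ε / 4 := by linarith
  have hab2 : ε / 4 < 3 * ε / 8 := by linarith
  obtain ⟨B, hBs, hBp, hB2, hBsup, hBR, R', c, hBc⟩ := glue_thm hk
    (U0 := UU (ε / 2) (3 * ε / 4) L₀) (Y0 := U Y)
    (UU_cd ha1 hab1 hb1 hε hL) (UU_per ha1 hab1 hb1 hL) (UU_pos hk ha1 hab1 hb1 hε hL)
    (hYs.of_le k_le) (fun x v t n l => hYp x v t n l) (fun q w hw => hY2 q w hw)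
    (fun K => by
      obtain ⟨C, hC⟩ := hYsup K
      exact ⟨C, fun q => hC q.1 q.2.1 q.2.2⟩) R
  set ch : X m → ℝ := chi (ε / 4) (3 * ε / 8) with hch
  have hsmall : ∀ x : X m, ch x ≠ 0 → x ∈ Tube m (3 * ε / 8) := fun x hx => chi_tube ha2 hab2 hx
  have hUL : ∀ (x v : X m) (t : ℝ), ch x ≠ 0 → UU (ε / 2) (3 * ε / 4) L₀ (x, v, t) = L₀ x v t := by
    intro x v t hx
    have h1 := hsmall x hx
    have h2 : red x = x := red_eq fun i => (h1 i).trans_le (by linarith)
    have h3 : chi (ε / 2) (3 * ε / 4) x = 1 := chi_one ha1 hab1 fun i => (h1 i).le.trans (by linarith)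
    simp only [UU, h2, h3]
    ring
  refine ⟨fun x v t => ch x * B (x, v, t) + (1 - ch x) * L₀ x v t, ⟨?_, ?_, ?_⟩, ?_, ?_, R', c, ?_⟩
  · exact ((chi1_cd (ε / 4) (3 * ε / 8)).mul hBs).contDiffOn.add
      ((contDiff_const.sub (chi1_cd (ε / 4) (3 * ε / 8))).contDiffOn.mul hL.1)
  · intro x v t hx
    constructor
    · have h1 := hBp x v t (Pi.single 0 1) 0
      have h2 : (fun i => x i + (((Pi.single 0 1 : Fin (m + 1) → ℤ) i : ℤ) : ℝ)) =
          Function.update x 0 (x 0 + 1) := by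
        funext j
        refine Fin.cases ?_ (fun i => ?_) j
        · simp
        · rw [Function.update_of_ne (Fin.succ_ne_zero i)]
          simp [Fin.succ_ne_zero]
      rw [h2] at h1
      have h3 : t + ((0 : ℤ) : ℝ) = t := by simp
      rw [h3] at h1
      simp only [hch, chi_update]
      rw [h1, (hL.2.1 x v t hx).1]
    · have h1 := hBp x v t 0 1
      have h2 : (fun i => x i + (((0 : Fin (m + 1) → ℤ) i : ℤ) : ℝ)) = x := by
        funext j
        simp
      rw [h2] at h1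
      have h3 : t + ((1 : ℤ) : ℝ) = t + 1 := by simp
      rw [h3] at h1
      simp only [h1, (hL.2.1 x v t hx).2]
  · rintro ⟨x, v, t⟩ hq w hw
    have hx : x ∈ Tube m ε := hq
    have hLs : ContDiffOn ℝ k (U fun x v t => ch x * B (x, v, t) + (1 - ch x) * L₀ x v t)
        {q | q.1 ∈ Tube m ε} :=
      ((chi1_cd (ε / 4) (3 * ε / 8)).mul hBs).contDiffOn.add
        ((contDiff_const.sub (chi1_cd (ε / 4) (3 * ε / 8))).contDiffOn.mul hL.1)
    have hF := lineOn (isOpen_tube m ε) (hLs.of_le (two_le hk)) x v t w (fun _ => hx)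
    have hA := lineOn isOpen_univ (hBs.of_le (two_le hk)).contDiffOn x v t w (fun _ => mem_univ _)
    have hQ := lineOn (isOpen_tube m ε) (hL.1.of_le (two_le hk)) x v t w (fun _ => hx)
    have h1 := comb_aux hF.1 hF.2 hA.1 hA.2 hQ.1 hQ.2 (c := ch x) (fun s => rfl)
    have h2 : 0 < H2 (U L₀) (x, v, t) w := hL.2.2 (x, v, t) hx w hw
    have h3 : 0 < H2 B (x, v, t) w := hB2 (x, v, t) w hw
    have h4 : ch x ≤ 1 := chi_le_one _ _ x
    have h5 : 0 ≤ ch x := chi_nonneg _ _ x
    show 0 < H2 (U fun x v t => ch x * B (x, v, t) + (1 - ch x) * L₀ x v t) (x, v, t) w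
    rw [h1]
    rcases eq_or_lt_of_le h5 with h6 | h6
    · rw [← h6]
      linarith
    · have := mul_pos h6 h3
      have := mul_nonneg (sub_nonneg.2 h4) h2.le
      linarith
  · intro x v t hxv
    by_cases hc : ch x = 0
    · simp only [hc]
      ring
    · have hx := hsmall x hc
      rcases hxv with h1 | h1
      · exact absurd (tube_mono (by linarith) hx) h1
      · have h2 := hBR (x, v, t) h1
        simp only
        rw [h2, hUL x v t hc]
        ring
  · intro hS K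
    obtain ⟨C1, hC1⟩ := hS K
    obtain ⟨C2, hC2⟩ := hBsup K
    refine ⟨max C1 C2, ?_⟩
    intro x v t hx
    have h1 := hC1 x v t hx
    have h2 := hC2 (x, v, t)
    simp only at h2
    have h4 : ch x ≤ 1 := chi_le_one _ _ x
    have h5 : 0 ≤ ch x := chi_nonneg _ _ x
    have h6 := le_max_left C1 C2
    have h7 := le_max_right C1 C2
    have h8 : ch x * (K * ‖v‖ - max C1 C2) ≤ ch x * B (x, v, t) :=
      mul_le_mul_of_nonneg_left (by linarith) h5
    have h9 : (1 - ch x) * (K * ‖v‖ - max C1 C2) ≤ (1 - ch x) * L₀ x v t :=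
      mul_le_mul_of_nonneg_left (by linarith) (sub_nonneg.2 h4)
    simp only
    linarith
  · intro x v t hx hv
    have h1 : ch x = 1 := chi_one ha2 hab2 fun i => (hx i).le
    have h2 := hBc (x, v, t) hv
    simp only
    rw [h1, h2]
    simp only [U]
    ring

end Run7.h716.TA
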