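import Pool.Agent.Run7.h506.TA.Stm
import Pool.Agent.TH217.TL.Step2

/-!
Piece STOP of project TA (helper506): approximate solutions known up to a time `T` only.
-/

set_option autoImplicit false

namespace Run7.h716.TA

open Set Filter Topology
open Pool.Agent.W774.TL Pool.Agent.Run7.h506.TA

lemma glue_hd {x y x' y' : ℝ → ℝ} {T : ℝ} (h0 : x T = y T) (h1 : x' T = y' T) {t : ℝ}
    (hx : t ≤ T → HasDerivAt x (x' t) t) (hy : T ≤ t → HasDerivAt y (y' t) t) :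
    HasDerivAt (fun s => if s ≤ T then x s else y s) (if t ≤ T then x' t else y' t) t := by
  rcases lt_trichotomy t T with h | h | h
  · rw [if_pos h.le]
    refine (hx h.le).congr_of_eventuallyEq ?_
    filter_upwards [Iio_mem_nhds h] with s hs
    rw [if_pos (le_of_lt hs)]
  · subst h
    rw [if_pos le_rfl]
    have h2 : HasDerivWithinAt (fun s => if s ≤ t then x s else y s) (x' t) (Iic t) t := by
      refine (hx le_rfl).hasDerivWithinAt.congr ?_ ?_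
      · intro s hs
        exact if_pos hs
      · exact if_pos le_rfl
    have h3 : HasDerivWithinAt (fun s => if s ≤ t then x s else y s) (x' t) (Ici t) t := by
      have h4 := (hy le_rfl).hasDerivWithinAt (s := Ici t)
      rw [← h1] at h4
      refine h4.congr ?_ ?_
      · intro s hs
        rcases eq_or_lt_of_le (show t ≤ s from hs) with h5 | h5
        · subst h5
          rw [if_pos le_rfl, h0]
        · exact if_neg (not_le.2 h5)
      · rw [if_pos le_rfl, h0]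
    have h5 := h2.union h3
    rw [Iic_union_Ici] at h5
    exact hasDerivWithinAt_univ.1 h5
  · rw [if_neg (not_le.2 h)]
    refine (hy h.le).congr_of_eventuallyEq ?_
    filter_upwards [Ioi_mem_nhds h] with s hs
    rw [if_neg (not_le.2 hs)]

/-- the statement on the whole interval, when the momentum is large at the end. -/
lemma stop_aux {K0 : ℕ} (hL : ∀ k : ℕ, K0 ≤ k → ∀ x p x' p' : ℝ → ℝ,
      (∀ t ∈ Icc ((k : ℝ) + 1 / 2) (k + 3 / 2), HasDerivAt x (x' t) t ∧ HasDerivAt p (p' t) t ∧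
        ((3 : ℝ) ^ k / 2 ≤ p t → |x' t - hp (x t) (p t) t| ≤ 1 / 10 ^ 10 ∧
          |p' t - fo (x t) (p t) t| ≤ 3 ^ k / 10 ^ 10)) →
      ∀ N : ℤ, Box x p k N →
        (∀ t ∈ Icc ((k : ℝ) + 1 / 2) (k + 3 / 2), (k : ℝ) - 1 ≤ x' t ∧ (3 : ℝ) ^ k / 2 ≤ p t ∧
          (3 : ℝ) ^ k / 4 ≤ fo (x t) (p t) t) ∧
        Box x p (k + 1) (N - (k + 1)))
    {G : ℝ} {k1 : ℕ} (hk1 : K0 ≤ k1) (hG : G ≤ 3 ^ k1 / 10 ^ 10) {T : ℝ}
    (hT : (k1 : ℝ) + 1 / 2 ≤ T) {x p x' p' : ℝ → ℝ}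
    (hs : ∀ t ∈ Icc ((k1 : ℝ) + 1 / 2) T, HasDerivAt x (x' t) t ∧ HasDerivAt p (p' t) t ∧
      ((3 : ℝ) ^ k1 / 2 ≤ p t → |x' t - hp (x t) (p t) t| ≤ 1 / 10 ^ 10 ∧
        |p' t - fo (x t) (p t) t| ≤ G))
    {N : ℤ} (hB : Box x p k1 N) (hp1 : (3 : ℝ) ^ k1 / 2 ≤ p T) :
    ∀ t ∈ Icc ((k1 : ℝ) + 1 / 2) T, t - 5 / 2 ≤ x' t ∧ (3 : ℝ) ^ (t - 3 / 2 : ℝ) / 2 ≤ p t ∧
      (3 : ℝ) ^ k1 / 4 ≤ fo (x t) (p t) t := by
  obtain ⟨-, -, hT3⟩ := hs T ⟨hT, le_rfl⟩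
  obtain ⟨hα, hβ⟩ := hT3 hp1
  obtain ⟨y, r, hy0, hr0, hyr⟩ := Pool.Agent.TH217.TL.ext_sol (x' T - hp (x T) (p T) T)
    (p' T - fo (x T) (p T) T) T (x T) (p T)
  set α : ℝ := x' T - hp (x T) (p T) T with hαd
  set β : ℝ := p' T - fo (x T) (p T) T with hβd
  set y' : ℝ → ℝ := fun t => hp (y t) (r t) t + α with hy'
  set r' : ℝ → ℝ := fun t => fo (y t) (r t) t + β with hr'
  set X : ℝ → ℝ := fun t => if t ≤ T then x t else y t with hX
  set P : ℝ → ℝ := fun t => if t ≤ T then p t else r t with hP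
  set X' : ℝ → ℝ := fun t => if t ≤ T then x' t else y' t with hX'
  set P' : ℝ → ℝ := fun t => if t ≤ T then p' t else r' t with hP'
  have hxd : ∀ t, (k1 : ℝ) + 1 / 2 ≤ t → HasDerivAt X (X' t) t := by
    intro t ht
    refine glue_hd hy0.symm ?_ (fun h => (hs t ⟨ht, h⟩).1) (fun _ => (hyr t).1)
    simp only [hy', hy0, hr0, hαd]
    ring
  have hpd : ∀ t, (k1 : ℝ) + 1 / 2 ≤ t → HasDerivAt P (P' t) t := by
    intro t ht
    refine glue_hd hr0.symm ?_ (fun h => (hs t ⟨ht, h⟩).2.1) (fun _ => (hyr t).2)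
    simp only [hr', hy0, hr0, hβd]
    ring
  have hmono : ∀ k : ℕ, k1 ≤ k → (3 : ℝ) ^ k1 ≤ 3 ^ k := fun k hk =>
    pow_le_pow_right₀ (by norm_num) hk
  have hlev : ∀ k : ℕ, k1 ≤ k → ∀ t ∈ Icc ((k : ℝ) + 1 / 2) (k + 3 / 2),
      HasDerivAt X (X' t) t ∧ HasDerivAt P (P' t) t ∧
        ((3 : ℝ) ^ k / 2 ≤ P t → |X' t - hp (X t) (P t) t| ≤ 1 / 10 ^ 10 ∧
          |P' t - fo (X t) (P t) t| ≤ 3 ^ k / 10 ^ 10) := by
    intro k hk t ht
    have hkk : (k1 : ℝ) ≤ k := Nat.cast_le.2 hk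
    have h1 : (k1 : ℝ) + 1 / 2 ≤ t := by linarith [ht.1]
    refine ⟨hxd t h1, hpd t h1, ?_⟩
    have hm := hmono k hk
    have hGk : G ≤ 3 ^ k / 10 ^ 10 := hG.trans (by gcongr)
    rcases le_or_gt t T with h | h
    · simp only [hX, hP, hX', hP', if_pos h]
      intro h2
      obtain ⟨e1, e2⟩ := (hs t ⟨h1, h⟩).2.2 (by linarith)
      exact ⟨e1, e2.trans hGk⟩
    · simp only [hX, hP, hX', hP', if_neg (not_le.2 h)]
      intro _
      simp only [hy', hr', add_sub_cancel_left]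
      exact ⟨hα, hβ.trans hGk⟩
  have hbox : ∀ k : ℕ, k1 ≤ k → ∃ N' : ℤ, Box X P k N' := by
    intro k hk
    induction k, hk using Nat.le_induction with
    | base =>
      refine ⟨N, ?_⟩
      have e1 : X ((k1 : ℝ) + 1 / 2) = x ((k1 : ℝ) + 1 / 2) := if_pos hT
      have e2 : P ((k1 : ℝ) + 1 / 2) = p ((k1 : ℝ) + 1 / 2) := if_pos hT
      unfold Box
      rw [e1, e2]
      exact hB
    | succ k hk ih =>
      obtain ⟨N', hN'⟩ := ih
      exact ⟨_, (hL k (hk1.trans hk) X P X' P' (hlev k hk) N' hN').2⟩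
  intro t ht
  set d : ℕ := ⌊t - ((k1 : ℝ) + 1 / 2)⌋₊ with hd
  have h0 : 0 ≤ t - ((k1 : ℝ) + 1 / 2) := by linarith [ht.1]
  have hd1 : (d : ℝ) ≤ t - ((k1 : ℝ) + 1 / 2) := Nat.floor_le h0
  have hd2 : t - ((k1 : ℝ) + 1 / 2) < d + 1 := Nat.lt_floor_add_one _
  obtain ⟨N', hN'⟩ := hbox (k1 + d) (Nat.le_add_right _ _)
  have hcast : ((k1 + d : ℕ) : ℝ) = k1 + d := by push_cast; ring
  have htk : t ∈ Icc (((k1 + d : ℕ) : ℝ) + 1 / 2) ((k1 + d : ℕ) + 3 / 2) := by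
    rw [hcast]
    constructor <;> linarith
  obtain ⟨c1, c2, c3⟩ := (hL (k1 + d) (hk1.trans (Nat.le_add_right _ _)) X P X' P'
    (hlev _ (Nat.le_add_right _ _)) N' hN').1 t htk
  simp only [hX, hP, hX', if_pos ht.2] at c1 c2 c3
  refine ⟨?_, ?_, ?_⟩
  · have := htk.2
    linarith
  · have h3 : (3 : ℝ) ^ (t - 3 / 2 : ℝ) ≤ (3 : ℝ) ^ (k1 + d : ℕ) := by
      rw [← Real.rpow_natCast]
      refine Real.rpow_le_rpow_of_exponent_le (by norm_num) ?_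
      have := htk.2
      linarith
    linarith
  · have := hmono (k1 + d) (Nat.le_add_right _ _)
    linarith

theorem t_STOP (hLVL : S_LVL) : S_STOP := by
  intro G hG0
  obtain ⟨K0, hL⟩ := hLVL
  obtain ⟨m, hm⟩ := pow_unbounded_of_one_lt (G * 10 ^ 10) (by norm_num : (1 : ℝ) < 3)
  refine ⟨max K0 m, ?_⟩
  intro k1 hk1 T hT x p x' p' hs N hB
  have hK : K0 ≤ k1 := (le_max_left _ _).trans hk1
  have hmk : (3 : ℝ) ^ m ≤ 3 ^ k1 := pow_le_pow_right₀ (by norm_num) ((le_max_right _ _).trans hk1)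
  have hG : G ≤ 3 ^ k1 / 10 ^ 10 := by
    rw [le_div_iff₀ (by norm_num)]
    linarith
  have h3 : (0 : ℝ) < 3 ^ k1 := by positivity
  have key : Icc ((k1 : ℝ) + 1 / 2) T ⊆ {t | (3 : ℝ) ^ k1 / 2 ≤ p t} := by
    refine IsClosed.Icc_subset_of_forall_exists_gt ?_ ?_ ?_
    · have hc : ContinuousOn p (Icc ((k1 : ℝ) + 1 / 2) T) := fun t ht =>
        (hs t ht).2.1.continuousAt.continuousWithinAt
      have h4 := hc.preimage_isClosed_of_isClosed isClosed_Icc (isClosed_Ici (a := (3 : ℝ) ^ k1 / 2))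
      rw [inter_comm]
      exact h4
    · have h5 := (abs_le.1 hB.2).1
      show (3 : ℝ) ^ k1 / 2 ≤ p (k1 + 1 / 2)
      linarith
    · intro t ht z hz
      obtain ⟨ht1, ht2⟩ := ht
      have hT' : ∀ s ∈ Icc ((k1 : ℝ) + 1 / 2) t, HasDerivAt x (x' s) s ∧ HasDerivAt p (p' s) s ∧
        ((3 : ℝ) ^ k1 / 2 ≤ p s → |x' s - hp (x s) (p s) s| ≤ 1 / 10 ^ 10 ∧
          |p' s - fo (x s) (p s) s| ≤ G) := fun s hs' => hs s ⟨hs'.1, hs'.2.trans ht2.2.le⟩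
      have h6 := (stop_aux hL hK hG ht2.1 hT' hB ht1 t ⟨ht2.1, le_rfl⟩).2.2
      obtain ⟨-, d1, d2⟩ := hs t ⟨ht2.1, ht2.2.le⟩
      have h7 := (abs_le.1 (d2 ht1).2).1
      have h8 : 0 < p' t := by
        have : (3 : ℝ) ^ k1 / 10 ^ 10 < 3 ^ k1 / 4 := by
          have h9 : (3 : ℝ) ^ k1 / 10 ^ 10 = 3 ^ k1 * (1 / 10 ^ 10) := by ring
          rw [h9]
          have h10 : (3 : ℝ) ^ k1 * (1 / 10 ^ 10) < 3 ^ k1 * (1 / 4) :=
            mul_lt_mul_of_pos_left (by norm_num) h3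
          linarith
        linarith
      have h9 := hasDerivAt_iff_tendsto_slope.1 d1
      have h10 : ∀ᶠ s in 𝓝[≠] t, 0 < slope p t s := h9.eventually (lt_mem_nhds h8)
      have h11 : ∀ᶠ s in 𝓝[>] t, 0 < slope p t s :=
        nhdsWithin_mono t (fun s (hs : t < s) => ne_of_gt hs) h10
      have h12 : ∀ᶠ s in 𝓝[>] t, s ∈ Ioc t z := Ioc_mem_nhdsGT hz
      obtain ⟨s, hs1, hs2⟩ := (h11.and h12).exists
      refine ⟨s, ?_, hs2⟩
      have h13 : 0 < p s - p t := by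
        rw [slope_def_field] at hs1
        have h14 : 0 < s - t := sub_pos.2 hs2.1
        have := mul_pos hs1 h14
        rwa [div_mul_cancel₀ _ h14.ne'] at this
      have h15 : (3 : ℝ) ^ k1 / 2 ≤ p t := ht1
      show (3 : ℝ) ^ k1 / 2 ≤ p s
      linarith
  exact stop_aux hL hK hG hT hs hB (key ⟨hT, le_rfl⟩)

end Run7.h716.TA
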